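import Pool.Agent.V7H76.AD.Spec2

set_option linter.all false

open Finset
open scoped Classical

namespace Pool.Agent.V7H19.AD

open Pool.Agent.V7H76.AD

theorem S_suc (b : ℕ → ℕ) (l : ℕ) : S b (l + 1) = S b l + b l := by
  unfold S; exact sum_range_succ _ _

theorem S_congr {b b' : ℕ → ℕ} {n : ℕ} (h : ∀ j < n, b j = b' j) {l : ℕ} (hl : l ≤ n) :
    S b l = S b' l := by
  unfold S
  exact sum_congr rfl fun j hj => h j (lt_of_lt_of_le (mem_range.1 hj) hl)

theorem wlt {P n T : ℕ} {b : ℕ → ℕ}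
    (h : ∀ j, j + 1 < T → b (n + j) / (16 * P) < b (n + (j + 1)) / (16 * P)) (j d : ℕ)
    (hj : j + (d + 1) < T) : b (n + j) / (16 * P) < b (n + (j + (d + 1))) / (16 * P) := by
  induction d with
  | zero => exact h j hj
  | succ d ih =>
    have h1 := ih (by omega)
    have h2 := h (j + (d + 1)) (by omega)
    exact h1.trans (by rw [show j + (d + 1 + 1) = j + (d + 1) + 1 by ring]; exact h2)

theorem wge {P n T : ℕ} {b : ℕ → ℕ}
    (h : ∀ j, j + 1 < T → b (n + j) / (16 * P) < b (n + (j + 1)) / (16 * P)) (j : ℕ)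
    (hj : j < T) : j ≤ b (n + j) / (16 * P) := by
  induction j with
  | zero => exact Nat.zero_le _
  | succ j ih =>
    have h1 := ih (by omega)
    have h2 := h j hj
    omega

theorem blt {P n T : ℕ} {b : ℕ → ℕ}
    (h : ∀ j, j + 1 < T → b (n + j) / (16 * P) < b (n + (j + 1)) / (16 * P)) (j j' : ℕ)
    (hjj : j < j') (hj : j' < T) : b (n + j) < b (n + j') := by
  obtain ⟨d, rfl⟩ : ∃ d, j' = j + (d + 1) := ⟨j' - j - 1, by omega⟩
  have h1 := wlt h j d hj
  by_contra hc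
  push Not at hc
  exact absurd (Nat.div_le_div_right (c := 16 * P) hc) (not_le.2 h1)

theorem inv_start2 {P m n0 i0 q0 : ℕ} {A : Finset ℕ} {b0 : ℕ → ℕ}
    (hp : ParC P m n0 i0 q0 A b0) : Inv P n0 q0 A b0 0 q0 b0 (fun _ => 0) ∅ where
  old := fun _ _ => rfl
  rng := fun j hj => by simp at hj
  win := fun j hj => by simp at hj
  res := fun j hj => by
    have : j = 0 := by simpa using hj
    subst this
    simp [st]
  adm := fun j hj => by simp at hj
  labA := fun r hr => by simp at hr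
  bal := fun g α _ => by simp
  Usub := fun c hc => by simp at hc
  Ucnt := fun c hc => by simp at hc
  Un := fun c h1 h2 => absurd h1 (not_le.2 h2)

theorem inv_all2 (hSt : S_STEP2) {P m n0 i0 q0 : ℕ} {A : Finset ℕ} {b0 : ℕ → ℕ}
    (hp : ParC P m n0 i0 q0 A b0) (d : ℕ) : ∃ (t : ℕ) (b lab : ℕ → ℕ) (U : Finset ℕ),
    Inv P n0 q0 A b0 t (q0 + d) b lab U := by
  induction d with
  | zero => exact ⟨0, b0, fun _ => 0, ∅, inv_start2 hp⟩
  | succ d ih =>
    obtain ⟨t, b, lab, U, hI⟩ := ih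
    exact hSt P m n0 i0 q0 A b0 hp t (q0 + d) b lab U hI (Nat.le_add_right _ _)

/-- the states as values of `st 4` -/
theorem st4 (x y : ℕ) (lab : ℕ → ℕ) (h0 : lab 0 = x) (h1 : lab 1 = y) :
    st 4 lab 0 = 3 ∧ st 4 lab 1 = -8 * (x : ℤ) ∧ st 4 lab 2 = 8 * (x : ℤ) + 1 ∧
      st 4 lab 4 = 3 ∧ st 4 lab 5 = -8 * (y : ℤ) ∧ st 4 lab 6 = 8 * (y : ℤ) + 1 := by
  refine ⟨?_, ?_, ?_, ?_, ?_, ?_⟩ <;> simp [st, h0, h1]

/-- the possible values of `st` -/
theorem st_cases (K : ℕ) (lab : ℕ → ℕ) (j : ℕ) :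
    (j % K = 0 ∧ st K lab j = 3) ∨ (j % K ≠ 0 ∧
      (st K lab j = -8 * (lab (j / K) : ℤ) ∨ st K lab j = 8 * (lab (j / K) : ℤ) + 1)) := by
  unfold st
  by_cases h : j % K = 0
  · left; exact ⟨h, by rw [if_pos h]⟩
  · right
    refine ⟨h, ?_⟩
    rw [if_neg h]
    by_cases h2 : j % K % 2 = 1
    · left; rw [if_pos h2]
    · right; rw [if_neg h2]

/-- U for an arbitrary valid state on the one side -/
theorem U2 (hU : S_U) {P : ℕ} {A : Finset ℕ} (hA : ∀ β ∈ A, β < P) (hF : ThreeAPFree (A : Set ℕ))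
    {α : ℕ} (hα : α ∈ A) {v : ℤ} (hv : VS A v) {K : ℕ} {lab : ℕ → ℕ} {j : ℕ}
    (hj : j % K ≠ 0 → lab (j / K) ∈ A) (hc : Cls (16 * P) α (v - st K lab j)) : Jp K lab α j := by
  -- the label of `v`
  obtain ⟨x, hx, l, hl3, hl⟩ : ∃ x ∈ A, ∃ l : ℕ, l < 3 ∧ ∀ lab' : ℕ → ℕ, lab' 0 = x →
      st 4 lab' l = v := by
    rcases hv with h | ⟨β, hβ, h | h⟩
    · exact ⟨α, hα, 0, by norm_num, fun lab' h0 => by rw [h]; exact (st4 _ _ lab' h0 rfl).1⟩
    · exact ⟨β, hβ, 1, by norm_num, fun lab' h0 => by rw [h]; exact (st4 _ _ lab' h0 rfl).2.1⟩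
    · exact ⟨β, hβ, 2, by norm_num, fun lab' h0 => by rw [h]; exact (st4 _ _ lab' h0 rfl).2.2.1⟩
  rcases st_cases K lab j with ⟨h1, -⟩ | ⟨h1, h2⟩
  · exact Or.inl h1
  · right
    have hy := hj h1
    obtain ⟨k, hk4, hk7, hk⟩ : ∃ k : ℕ, 4 < k ∧ k < 7 ∧ ∀ lab' : ℕ → ℕ, lab' 1 = lab (j / K) →
        st 4 lab' k = st K lab j := by
      rcases h2 with h | h
      · exact ⟨5, by norm_num, by norm_num, fun lab' h0 => by
          rw [h]; exact (st4 _ _ lab' rfl h0).2.2.2.2.1⟩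
      · exact ⟨6, by norm_num, by norm_num, fun lab' h0 => by
          rw [h]; exact (st4 _ _ lab' rfl h0).2.2.2.2.2⟩
    set lab' : ℕ → ℕ := fun r => if r = 0 then x else lab (j / K) with hlab'
    have e0 : lab' 0 = x := by simp [hlab']
    have e1 : lab' 1 = lab (j / K) := by simp [hlab']
    have h3 := hU P 4 A lab' α k l hA hF hα (fun _ => by
      have : k / 4 = 1 := by omega
      rw [this, e1]; exact hy) (fun _ => by
      have : l / 4 = 0 := by omega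
      rw [this, e0]; exact hx) (by rw [hl lab' e0, hk lab' e1]; exact hc)
    rcases h3.1 with h4 | h4
    · omega
    · have : k / 4 = 1 := by omega
      rwa [this, e1] at h4

/-- reduction of the label modulo the old modulus -/
theorem red8 (P1 β : ℕ) (c : ℤ) (hc : ∃ d : ℤ, c = 8 * d) :
    c * (β : ℤ) ≡ c * ((β % (2 * P1) : ℕ) : ℤ) [ZMOD ((16 * P1 : ℕ) : ℤ)] := by
  obtain ⟨d, rfl⟩ := hc
  rw [Int.modEq_iff_dvd]
  have h1 := Nat.div_add_mod β (2 * P1)
  refine ⟨-(d * ((β / (2 * P1) : ℕ) : ℤ)), ?_⟩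
  have h2 : (β : ℤ) = 2 * P1 * ((β / (2 * P1) : ℕ) : ℤ) + ((β % (2 * P1) : ℕ) : ℤ) := by
    exact_mod_cast h1.symm
  have h3 : ((β % (2 * P1) : ℕ) : ℤ) = (β : ℤ) - 2 * P1 * ((β / (2 * P1) : ℕ) : ℤ) := by
    linarith
  rw [h3]; push_cast; ring

theorem cls_red {P1 α : ℕ} {z : ℤ} (h : Cls (16 * P1) α z) : Cls (16 * P1) (α % (2 * P1)) z := by
  have e1 := red8 P1 α (-8) ⟨-1, by norm_num⟩
  have e2 := red8 P1 α 16 ⟨2, by norm_num⟩
  have e3 := red8 P1 α (-16) ⟨-2, by norm_num⟩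
  have e4 := red8 P1 α 8 ⟨1, by norm_num⟩
  rcases h with h | h | h | h
  · exact Or.inl (h.trans (e1.sub_right 3))
  · exact Or.inr (Or.inl (h.trans (e2.add_right 1)))
  · exact Or.inr (Or.inr (Or.inl (h.trans (e3.sub_right 1))))
  · exact Or.inr (Or.inr (Or.inr (h.trans (e4.add_right 3))))

theorem cls_dvd {M M' α : ℕ} {z : ℤ} (hd : (M' : ℤ) ∣ (M : ℤ)) (h : Cls M α z) : Cls M' α z := by
  rcases h with h | h | h | h
  · exact Or.inl (h.of_dvd hd)
  · exact Or.inr (Or.inl (h.of_dvd hd))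
  · exact Or.inr (Or.inr (Or.inl (h.of_dvd hd)))
  · exact Or.inr (Or.inr (Or.inr (h.of_dvd hd)))

theorem cls_congr {M α : ℕ} {z z' : ℤ} (h' : z ≡ z' [ZMOD (M : ℤ)]) (h : Cls M α z) :
    Cls M α z' := by
  rcases h with h | h | h | h
  · exact Or.inl (h'.symm.trans h)
  · exact Or.inr (Or.inl (h'.symm.trans h))
  · exact Or.inr (Or.inr (Or.inl (h'.symm.trans h)))
  · exact Or.inr (Or.inr (Or.inr (h'.symm.trans h)))

theorem vs_red {P1 : ℕ} {A A1 : Finset ℕ} (hproj : ∀ α ∈ A, α % (2 * P1) ∈ A1) {v : ℤ}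
    (hv : VS A v) : ∃ v' : ℤ, VS A1 v' ∧ v ≡ v' [ZMOD ((16 * P1 : ℕ) : ℤ)] := by
  rcases hv with h | ⟨β, hβ, h | h⟩
  · exact ⟨3, Or.inl rfl, by rw [h]⟩
  · exact ⟨_, Or.inr ⟨β % (2 * P1), hproj β hβ, Or.inl rfl⟩, by
      rw [h]; exact red8 P1 β (-8) ⟨-1, by norm_num⟩⟩
  · exact ⟨_, Or.inr ⟨β % (2 * P1), hproj β hβ, Or.inr rfl⟩, by
      rw [h]; exact (red8 P1 β 8 ⟨1, by norm_num⟩).add_right 1⟩

section cmp
variable {P m n0 i0 : ℕ} {A : Finset ℕ} {P1 m1 n1 i1 : ℕ} {A1 : Finset ℕ} {t1 Bf : ℕ}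
  {b0 lab1 : ℕ → ℕ} (hH : Hist P m n0 i0 A P1 m1 n1 i1 A1 t1 Bf b0 lab1)
include hH

theorem cmp_one (hU : S_U) {b : ℕ → ℕ} (hb : ∀ j < n0, b j = b0 j) {α : ℕ} (hα : α ∈ A) {j : ℕ}
    (hj : j < t1 * P1) (hc : Comp P A ((S b n0 : ℤ) - 3) b α (n1 + j)) :
    Jp P1 lab1 (α % (2 * P1)) j := by
  have hP1 : 0 < P1 := by rw [hH.hP1]; positivity
  obtain ⟨v, hv, hc⟩ := hc
  obtain ⟨v', hv', hvv⟩ := vs_red hH.proj hv
  have hd : ((16 * P1 : ℕ) : ℤ) ∣ ((16 * P : ℕ) : ℤ) := by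
    refine ⟨Bf, ?_⟩
    rw [hH.hP]; push_cast; ring
  have h1 := cls_red (cls_dvd hd hc)
  have e1 : S b n0 = S b0 n0 := S_congr hb le_rfl
  have e2 : S b (n1 + j) = S b0 (n1 + j) := S_congr hb (by rw [hH.hn]; omega)
  have r1 := hH.gen.res j hj.le
  have r2 := hH.gen.res (t1 * P1) le_rfl
  have r3 : st P1 lab1 (t1 * P1) = 3 := by simp [st]
  rw [← hH.hn, r3] at r2
  have r4 : v + ((S b n0 : ℤ) - 3) - S b (n1 + j) ≡ v' - st P1 lab1 j
      [ZMOD ((16 * P1 : ℕ) : ℤ)] := by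
    have r5 := ((hvv.add r2).sub_right 3).sub r1
    have r6 : v + ((S b n0 : ℤ) - 3) - S b (n1 + j) =
        v + ((S b0 n0 : ℤ) - S b0 n1 + 3) - 3 - ((S b0 (n1 + j) : ℤ) - S b0 n1 + 3) := by
      rw [e1, e2]; ring
    have r7 : v' - st P1 lab1 j = v' + 3 - 3 - st P1 lab1 j := by ring
    rw [r6, r7]
    exact r5
  have h2 := cls_congr r4 h1
  refine U2 hU hH.hA1 hH.hF1 (hH.proj α hα) hv' (fun hjK => ?_) h2
  exact hH.gen.labA _ ((Nat.div_lt_iff_lt_mul hP1).2 hj)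

theorem cmp_all (hU : S_U) (hB : S_BLK) {b : ℕ → ℕ} (hb : ∀ j < n0, b j = b0 j) {α : ℕ}
    (hα : α ∈ A) {P2 : ℕ} (hP2 : P2 = Bf * P) (ht1 : t1 = 0 ∨ 8192 * Bf ^ 2 ≤ A1.card)
    (hn1 : 512 * (16 * P2) * n1 ≤ 2 ^ i0) :
    256 * (16 * P2) * ((range n0).filter
      (fun j => Comp P A ((S b n0 : ℤ) - 3) b α j)).card ≤ 2 ^ i0 := by
  have hP1 : 0 < P1 := by rw [hH.hP1]; positivity
  have hn1' : 2 * (256 * (16 * P2) * n1) ≤ 2 ^ i0 := by
    refine le_trans (le_of_eq ?_) hn1; ring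
  rcases ht1 with ht1 | ht1
  · have h1 : ((range n0).filter (fun j => Comp P A ((S b n0 : ℤ) - 3) b α j)).card ≤ n1 := by
      refine (card_filter_le _ _).trans ?_
      rw [card_range, hH.hn, ht1, Nat.zero_mul, Nat.add_zero]
    have h2 := Nat.mul_le_mul_left (256 * (16 * P2)) h1
    omega
  · have hi : 2 ^ i1 ≤ 2 ^ i0 := Nat.pow_le_pow_right (by norm_num) hH.hi1
    obtain ⟨y, hy⟩ : ∃ y, y * (16 * P1) = 2 ^ i0 := by
      have h1 : 2 ^ (m1 + 4) ≤ 2 ^ i0 := by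
        have h2 := hH.hi3
        rw [hH.hP1] at h2
        refine le_trans ?_ (h2.trans hi)
        rw [show 16 * 2 ^ m1 * 2 ^ m1 * 2 ^ m1 = 2 ^ (3 * m1 + 4) by ring]
        exact Nat.pow_le_pow_right (by norm_num) (by omega)
      have h2 : m1 + 4 ≤ i0 := (Nat.pow_le_pow_iff_right (by norm_num)).1 h1
      refine ⟨2 ^ (i0 - (m1 + 4)), ?_⟩
      rw [hH.hP1, show 16 * 2 ^ m1 = 2 ^ (m1 + 4) by ring, ← pow_add]
      congr 1; omega
    have hcard : A1.card ≤ P1 := by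
      have h : A1 ⊆ range P1 := fun α hα => mem_range.2 (hH.hA1 α hα)
      simpa using card_le_card h
    have hblk := hB P1 t1 A1 lab1 (α % (2 * P1)) hP1 hcard
      (fun g => hH.gen.bal g _ (hH.proj α hα)) 0 y
    set T := (Ico 0 y).filter (fun j => j ≤ t1 * P1 ∧ Jp P1 lab1 (α % (2 * P1)) j) with hT
    have hsub : (range n0).filter (fun j => Comp P A ((S b n0 : ℤ) - 3) b α j) ⊆
        range n1 ∪ T.image (fun j => n1 + j) := by
      intro j hj
      rw [mem_filter, mem_range] at hj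
      rw [mem_union, mem_range, mem_image]
      by_cases hj1 : j < n1
      · exact Or.inl hj1
      · right
        obtain ⟨j', rfl⟩ : ∃ j', j = n1 + j' := ⟨j - n1, by omega⟩
        have hj' : j' < t1 * P1 := by have := hH.hn; omega
        refine ⟨j', ?_, rfl⟩
        rw [hT, mem_filter, mem_Ico]
        refine ⟨⟨Nat.zero_le _, ?_⟩, hj'.le, cmp_one hH hU hb hα hj' hj.2⟩
        have h5 := wge hH.gen.win j' hj'
        have h6 : b0 (n1 + j') / (16 * P1) < y := by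
          rw [Nat.div_lt_iff_lt_mul (by positivity), hy]
          exact (hH.gen.rng j' hj').2
        omega
    have hF : ((range n0).filter (fun j => Comp P A ((S b n0 : ℤ) - 3) b α j)).card ≤
        n1 + T.card := by
      refine (card_le_card hsub).trans ((card_union_le _ _).trans ?_)
      rw [card_range]
      exact Nat.add_le_add_left card_image_le _
    have h7 : A1.card * (16 * P1 * T.card) ≤ 12 * 2 ^ i0 := by
      have h8 := hH.hi3
      calc A1.card * (16 * P1 * T.card) = (A1.card * T.card) * (16 * P1) := by ring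
        _ ≤ (4 * (y - 0) + 8 * P1 * P1) * (16 * P1) := Nat.mul_le_mul_right _ hblk
        _ = 4 * (y * (16 * P1)) + 8 * (16 * P1 * P1 * P1) := by rw [Nat.sub_zero]; ring
        _ ≤ 4 * 2 ^ i0 + 8 * 2 ^ i0 := by rw [hy]; omega
        _ = _ := by ring
    have h8 : 8192 * Bf ^ 2 * (16 * P1 * T.card) ≤ 12 * 2 ^ i0 :=
      (Nat.mul_le_mul_right _ ht1).trans h7
    have h9 : 8192 * Bf ^ 2 * (16 * P1 * T.card) = 32 * (256 * (16 * P2) * T.card) := by
      rw [hP2, hH.hP]; ring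
    rw [h9] at h8
    have h10 := Nat.mul_le_mul_left (256 * (16 * P2)) hF
    rw [Nat.mul_add] at h10
    omega

end cmp

theorem t_GEN (hU : S_U) (hB : S_BLK) (hSt : S_STEP2) (hD : S_DENS2) (hC : S_CNT2) : S_GEN := by
  intro P m n0 i0 q0 L A b0 hp P1 m1 n1 i1 A1 t1 Bf lab1 hH P2 m2 A2 hN hmono hlt ht1 hn1
  have hP : 0 < P := by rw [hp.hP]; positivity
  have hq : q0 * 2 ^ L = q0 + (q0 * 2 ^ L - q0) := by
    have : q0 * 1 ≤ q0 * 2 ^ L := Nat.mul_le_mul_left _ Nat.one_le_two_pow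
    omega
  obtain ⟨t, b, lab, U, hI⟩ := inv_all2 hSt hp (q0 * 2 ^ L - q0)
  rw [← hq] at hI
  have hup : q0 * 2 ^ L * (32 * P * P) = 2 ^ (i0 + L) := by
    rw [pow_add, ← hp.hq]; ring
  have hrng : ∀ j < t * P, 2 ^ i0 ≤ b (n0 + j) ∧ b (n0 + j) < 2 ^ (i0 + L) := by
    intro j hj
    have h1 := hI.rng j hj
    rwa [hp.hq, hup] at h1
  have hdens : ∀ i, i0 ≤ i → i < i0 + L → 2 ^ i ≤ 64 * P * ((range (t * P)).filter
      (fun j => 2 ^ i ≤ b (n0 + j) ∧ b (n0 + j) < 2 ^ (i + 1))).card := by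
    intro i hi hi2
    exact hD P m n0 i0 q0 L A b0 hp t b lab U hI (fun i' h1 h2 α hα =>
      hC P m n0 i0 q0 L A b0 hp P1 m1 n1 i1 A1 t1 Bf lab1 hH hN.hL t _ b lab U hI i' h1 h2 α hα)
      i hi hi2
  have hn0 := hp.hn
  have hinc : ∀ j, j + 1 < n0 + t * P → b j < b (j + 1) := by
    intro j hj
    by_cases h1 : j + 1 < n0
    · rw [hI.old j (by omega), hI.old (j + 1) h1]; exact hmono j h1
    · by_cases h2 : j + 1 = n0
      · rw [hI.old j (by omega), h2]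
        have h3 := (hrng 0 (by omega)).1
        rw [Nat.add_zero] at h3
        exact lt_of_lt_of_le (hlt j (by omega)) h3
      · have h3 := blt hI.win (j - n0) (j - n0 + 1) (by omega) (by omega)
        rwa [show n0 + (j - n0) = j by omega, show n0 + (j - n0 + 1) = j + 1 by omega] at h3
  have hp2 : 2 ^ i0 ≤ 2 ^ (i0 + L) := Nat.pow_le_pow_right (by norm_num) (by omega)
  have hbd : ∀ j < n0 + t * P, b j < 2 ^ (i0 + L) := by
    intro j hj
    by_cases h1 : j < n0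
    · rw [hI.old j h1]; exact lt_of_lt_of_le (hlt j h1) hp2
    · have h2 := (hrng (j - n0) (by omega)).2
      rwa [show n0 + (j - n0) = j by omega] at h2
  -- the last term
  have hlast : 32 * P2 * P2 ≤ b (n0 + t * P - 1) := by
    have hL1 := hN.hL1
    have h1 := hdens (i0 + L - 1) (by omega) (by omega)
    have h2 : ((range (t * P)).filter (fun j => 2 ^ (i0 + L - 1) ≤ b (n0 + j) ∧
        b (n0 + j) < 2 ^ (i0 + L - 1 + 1))).card ≠ 0 := by
      intro h0
      rw [h0, Nat.mul_zero] at h1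
      have : 0 < 2 ^ (i0 + L - 1) := by positivity
      omega
    obtain ⟨j, hj⟩ := card_pos.1 (Nat.pos_of_ne_zero h2)
    rw [mem_filter, mem_range] at hj
    have h3 : b (n0 + j) ≤ b (n0 + t * P - 1) := by
      rcases Nat.lt_or_ge j (t * P - 1) with h | h
      · have h4 := blt hI.win j (t * P - 1) h (by omega)
        rw [show n0 + (t * P - 1) = n0 + t * P - 1 by omega] at h4
        exact h4.le
      · rw [show n0 + t * P - 1 = n0 + j by omega]
    have h4 : 2 * (32 * P2 * P2) ≤ 2 * 2 ^ (i0 + L - 1) := by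
      have h5 := hN.hb
      have h6 : 2 * 2 ^ (i0 + L - 1) = 2 ^ (i0 + L) := by
        rw [← pow_succ']; congr 1; omega
      rw [h6]
      refine le_trans (le_of_eq ?_) h5; ring
    omega
  obtain ⟨q2, hq2⟩ : ∃ q2, q2 * (32 * P2 * P2) = 2 ^ (i0 + L) := by
    have h1 := hN.hb
    rw [hN.hP, show 64 * 2 ^ m2 * 2 ^ m2 = 2 ^ (2 * m2 + 6) by ring] at h1
    have h2 : 2 * m2 + 6 ≤ i0 + L := (Nat.pow_le_pow_iff_right (by norm_num)).1 h1
    refine ⟨2 ^ (i0 + L - (2 * m2 + 5)), ?_⟩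
    rw [hN.hP, show 32 * 2 ^ m2 * 2 ^ m2 = 2 ^ (2 * m2 + 5) by ring, ← pow_add]
    congr 1; omega
  refine ⟨t, b, lab, q2, hI.old, hinc, hbd, ?_, hdens, ?_, ?_⟩
  · intro j hj hj'
    have h1 := hI.adm (j - n0) (by omega)
    rwa [show n0 + (j - n0) = j by omega] at h1
  · exact { hP := hN.hP, hm := hp.hm.trans hN.hm, hA := hN.hA, hF := hN.hF, hN := hN.hN,
            hn := by omega, hb := hlast, hi := hN.hi, hq := hq2 }
  · refine { gen := { rng := hrng, win := hI.win, res := hI.res, labA := hI.labA, bal := hI.bal },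
             hn := rfl, hP := hN.hPB, hBf := hN.hBf, hP1 := hp.hP, hm1 := hp.hm,
             hi1 := by omega, hA1 := hp.hA, hF1 := hp.hF, hi3 := hp.hi, proj := hN.proj,
             fib := hN.fib, hB1 := by rw [Nat.add_sub_cancel_left]; exact hN.hB1,
             hB2 := hN.hB2, sum := ?_, cmp := ?_ }
    · -- the sum of the old terms
      have h1 : ∀ j < n0, j ≤ b j := by
        intro j hj
        induction j with
        | zero => exact Nat.zero_le _
        | succ j ih =>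
          have h2 := ih (by omega)
          have h3 := hinc j (by omega)
          omega
      have h2 : n0 ≤ 2 ^ i0 := by
        have h3 := h1 (n0 - 1) (by omega)
        rw [hI.old (n0 - 1) (by omega)] at h3
        have h4 := hlt (n0 - 1) (by omega)
        omega
      have h3 : S b n0 < n0 * 2 ^ i0 := by
        have h4 : ∑ j ∈ range n0, b j < ∑ j ∈ range n0, 2 ^ i0 := by
          apply sum_lt_sum_of_nonempty
          · exact nonempty_range_iff.2 (by omega)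
          · intro j hj
            rw [mem_range] at hj
            rw [hI.old j hj]; exact hlt j hj
        rw [sum_const, card_range, smul_eq_mul] at h4
        exact h4
      calc S b n0 < n0 * 2 ^ i0 := h3
        _ ≤ 2 ^ i0 * 2 ^ i0 := Nat.mul_le_mul_right _ h2
        _ = 2 ^ (i0 + i0) := by rw [pow_add]
        _ ≤ 2 ^ (i0 + L) := Nat.pow_le_pow_right (by norm_num) (by have := hN.hLi; omega)
    · intro α hα
      exact cmp_all hH hU hB hI.old (hN.proj α hα) hN.hPB ht1 hn1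

end Pool.Agent.V7H19.AD
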